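import Mathlib
import Pool.Agent.Results.MP_0e6b5f_nt.AllFieldsHenon
import Pool.Agent.H164.NA.Core

/-!
# No periodic points of small degree, for all Hénon maps whose constant term is near a typical point

`K` is a number field of degree `n`, `K_ℝ = K ⊗ ℝ` its real space (`mixedSpace K`) and `H` the absolute multiplicative
height. For almost every `z` in `K_ℝ`, for all `κ ∈ (0, 1)` and all `σ > (3 + κ) / 2`, all but finitely many `c ∈ K` with
`|c - z|_v ≤ H(c) ^ (-σ)` at all archimedean places have the following property: ALL generalized Hénon maps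
`f(x, y) = (y, F(y) - δ x)` over `K` with `F(0) = c`, of any degree `d ≥ 2` and with arbitrary `δ` and arbitrary other
coefficients, push all points of degree less than `d` over `K` away, under `f` or its inverse. Moreover almost every real
number and almost every complex number `z` has this property for ALL number fields `K` contained in `ℝ` or `ℂ` at once,
with the relative height `H(c) ^ n`: `|c - z| ≤ H(c) ^ (- n σ)`, `σ > (3 + κ) / 2` in `ℝ` and `σ > (3 + κ) / 4` in `ℂ`.
(By Dirichlet's theorem infinitely many `c ∈ K` are as near to `z` if `σ < 2` in `K_ℝ` and in `ℝ`, `σ < 1` in `ℂ`.)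
-/

set_option autoImplicit false

namespace Pool.Agent.Results.MP_0e6b5f_nt.ConstantTermNearPoints

open NumberField MeasureTheory Polynomial IsDedekindDomain
open Pool.Agent.Results.MP_0e6b5f_nt.AllFieldsHenon (h Escapes ContainsBad logNorm henon)

section Defs

variable {K : Type} [Field K] [NumberField K]

/-- the absolute multiplicative height -/
noncomputable def H (c : K) : ℝ := Real.exp (h c)

open scoped Classical in
/-- `c` is within `H(c) ^ (-σ)` of the point `z` of the real space of `K`, at every archimedean place -/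
def Near (σ : ℝ) (z : mixedEmbedding.mixedSpace K) (c : K) : Prop :=
  dist (mixedEmbedding K c) z ≤ H c ^ (-σ)

/-- there is a generalized Hénon map `f(x, y) = (y, F(y) - δ x)` over `K` of some degree `d ≥ 2` with `F(0) = c` and a
periodic point of degree less than `d` over `K`, such that the bad primes `v` of the other coefficients (`δ` or one of
`a_1, …, a_d` is not integral at `v`, or `a_d` is not a unit) are few: `∑ log N v / n < κ (1 + h(c))` -/
def HasSmallPeriodic (κ : ℝ) (c : K) : Prop :=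
  ∃ (F : K[X]) (δ : K), 2 ≤ F.natDegree ∧ F.coeff 0 = c ∧ δ ≠ 0 ∧
    ∃ T : Finset (HeightOneSpectrum (𝓞 K)), ContainsBad F δ T ∧ logNorm T < κ * (1 + h c) ∧
      ∃ (L : Type) (_ : Field L) (_ : NumberField L) (_ : Algebra K L),
        Module.finrank K L < F.natDegree ∧ ∃ (P : L × L) (m : ℕ), 1 ≤ m ∧ (henon L F δ)^[m] P = P

end Defs

section Aux

theorem H_eq {K : Type} [Field K] [NumberField K] (c : K) : Pool.Agent.H164.NA.H c = H c := rfl

/-- the bad elements -/
def Bad (K : Type) [Field K] [NumberField K] (κ : ℝ) : Set K := {c : K | ¬ Escapes κ c}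

variable {K : Type} [Field K] [NumberField K]

lemma h_nonneg (c : K) : 0 ≤ h c :=
  div_nonneg (Height.zero_le_logHeight₁ c) (Nat.cast_nonneg _)

lemma mono {κ r : ℝ} (hκ : κ ≤ r) {c : K} (hc : Escapes r c) : Escapes κ c := by
  intro F δ hd hF hδ T hT L _ _ _ hL P k
  refine le_trans ?_ (hc F δ hd hF hδ T hT L hL P k)
  have h1 : 0 ≤ 1 + h c := by linarith [h_nonneg c]
  have h2 : κ * (1 + h c) ≤ r * (1 + h c) := mul_le_mul_of_nonneg_right hκ h1
  exact mul_le_mul_of_nonneg_left (by linarith) (by positivity)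

lemma count (K : Type) [Field K] [NumberField K] (κ : ℝ) (hκ : κ ∈ Set.Ioo (0 : ℝ) 1) :
    ∀ ε : ℝ, 0 < ε → ∃ C : ℝ, ∀ X : ℝ, 1 ≤ X →
    {c : K | c ∈ Bad K κ ∧ Pool.Agent.H164.NA.H c ≤ X}.Finite ∧
      ({c : K | c ∈ Bad K κ ∧ Pool.Agent.H164.NA.H c ≤ X}.ncard : ℝ) ≤
        C * X ^ ((Module.finrank ℚ K : ℝ) * ((3 + κ) / 2) + ε) := by
  intro ε hε
  have hn : (0 : ℝ) < Module.finrank ℚ K := Pool.Agent.H164.NA.n_pos
  obtain ⟨C, hC0, hC⟩ := AllFieldsHenon.part_one κ (ε / Module.finrank ℚ K) hκ.1 hκ.2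
    (by positivity)
  refine ⟨C ^ Module.finrank ℚ K, fun X hX => ?_⟩
  have hX0 : 0 < X := by linarith
  obtain ⟨h1, h2⟩ := hC K X hX
  have heq : {c : K | c ∈ Bad K κ ∧ Pool.Agent.H164.NA.H c ≤ X} = AllFieldsHenon.Exc K κ X := by
    ext c
    constructor
    · rintro ⟨g1, g2⟩
      exact ⟨(Pool.Agent.H164.NA.H_le_iff c hX0).1 g2, g1⟩
    · rintro ⟨g1, g2⟩
      exact ⟨g2, (Pool.Agent.H164.NA.H_le_iff c hX0).2 g1⟩
  rw [heq]
  refine ⟨h1.subset fun c hc => hc.1, h2.trans (le_of_eq ?_)⟩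
  rw [mul_pow, ← Real.rpow_natCast (X ^ _), ← Real.rpow_mul hX0.le]
  congr 2
  field_simp
  ring

lemma dense (K : Type) [Field K] [NumberField K] (κ : ℝ) (hκ : κ ∈ Set.Ioo (0 : ℝ) 1) (t : ℝ)
    (ht : (3 + κ) / 2 < t) :
    ∃ r : ℚ, (r : ℝ) ∈ Set.Ioo (0 : ℝ) 1 ∧ (3 + (r : ℝ)) / 2 < t ∧ Bad K κ ⊆ Bad K r := by
  obtain ⟨r, hr1, hr2⟩ : ∃ r : ℚ, κ < (r : ℝ) ∧ (r : ℝ) < min 1 (2 * t - 3) :=
    exists_rat_btwn (lt_min hκ.2 (by linarith))
  have hr3 := hr2.trans_le (min_le_left _ _)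
  have hr4 := hr2.trans_le (min_le_right _ _)
  exact ⟨r, ⟨hκ.1.trans hr1, hr3⟩, by linarith, fun c hc hcon => hc (mono hr1.le hcon)⟩

lemma s_nonneg (κ : ℝ) (hκ : κ ∈ Set.Ioo (0 : ℝ) 1) : 0 ≤ (3 + κ) / 2 := by linarith [hκ.1]

lemma small {κ : ℝ} {c : K} (hc : HasSmallPeriodic κ c) : ¬ Escapes κ c := by
  obtain ⟨F, δ, hd, hF, hδ, T, hT, hs, L, i1, i2, i3, hL, P, m, hm, heq⟩ := hc
  intro g2
  exact AllFieldsHenon.part_five g2 F δ hd hF hδ T hT hs L hL P m hm heq

end Aux

open scoped Classical in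
/-- **Theorem.** `K` is any number field, of degree `n`.
(1) For almost every `z` in the real space of `K`, for all `κ ∈ (0, 1)` and `σ > (3 + κ) / 2`: all but finitely many `c ∈ K`
with `|c - z|_v ≤ H(c) ^ (-σ)` at all archimedean places have the property `Escapes κ` (for all generalized Hénon maps over
`K` with constant term `c`, of any degree `d ≥ 2`); and, apart from finitely many of these `c`, no such Hénon map with few
bad primes has a periodic point of degree less than `d` over `K`.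
(2) For every map `φ` from `K` to a metric space, every `κ ∈ (0, 1)` and `σ > 0` the points `z` for which infinitely many
`c` without `Escapes κ` satisfy `dist (φ c, z) ≤ H(c) ^ (-σ)` form a set of dimension at most `n (3 + κ) / (2 σ)`.
(3) For almost every real number `z`, for all number fields `K ⊂ ℝ`, all `κ ∈ (0, 1)` and `σ > (3 + κ) / 2`: all but finitely
many `c ∈ K` with `|c - z| ≤ H(c) ^ (- n σ)` have the property `Escapes κ`; and infinitely many rational `c` satisfy
`|c - z| ≤ H(c) ^ (-σ)` if `σ < 2`.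
(4) For almost every complex number `z`, for all number fields `K ⊂ ℂ`, all `κ ∈ (0, 1)` and `σ > (3 + κ) / 4`: all but
finitely many `c ∈ K` with `|c - z| ≤ H(c) ^ (- n σ)` have the property `Escapes κ`.
(5) `c` does not have the property `Escapes κ` if it is the constant term of a generalized Hénon map with few bad primes and
a periodic point of small degree. -/
theorem result :
    (∀ (K : Type) [Field K] [NumberField K], ∀ᵐ z : mixedEmbedding.mixedSpace K,
      ∀ κ σ : ℝ, 0 < κ → κ < 1 → (3 + κ) / 2 < σ →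
        {c : K | Near σ z c ∧ ¬ Escapes κ c}.Finite ∧ {c : K | Near σ z c ∧ HasSmallPeriodic κ c}.Finite) ∧
    (∀ (K : Type) [Field K] [NumberField K] (M : Type) [MetricSpace M] (φ : K → M) (κ σ : ℝ),
      0 < κ → κ < 1 → 0 < σ →
        dimH {z : M | {c : K | dist (φ c) z ≤ H c ^ (-σ) ∧ ¬ Escapes κ c}.Infinite} ≤
          ENNReal.ofReal (Module.finrank ℚ K * (3 + κ) / (2 * σ))) ∧
    (∀ᵐ z : ℝ, (∀ (K : IntermediateField ℚ ℝ) [NumberField K], ∀ κ σ : ℝ, 0 < κ → κ < 1 → (3 + κ) / 2 < σ →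
      {c : K | |(c : ℝ) - z| ≤ H c ^ (-(Module.finrank ℚ K * σ)) ∧ ¬ Escapes κ c}.Finite) ∧
        ∀ σ : ℝ, σ < 2 → {c : ℚ | |(c : ℝ) - z| ≤ H c ^ (-σ)}.Infinite) ∧
    (∀ᵐ z : ℂ, ∀ (K : IntermediateField ℚ ℂ) [NumberField K], ∀ κ σ : ℝ, 0 < κ → κ < 1 → (3 + κ) / 4 < σ →
      {c : K | ‖(c : ℂ) - z‖ ≤ H c ^ (-(Module.finrank ℚ K * σ)) ∧ ¬ Escapes κ c}.Finite) ∧
    (∀ (K : Type) [Field K] [NumberField K] (κ : ℝ) (c : K), HasSmallPeriodic κ c → ¬ Escapes κ c) := by
  refine ⟨?_, ?_, ?_, ?_, fun K _ _ κ c hc => small hc⟩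
  · intro K _ _
    have h1 := Pool.Agent.H164.NA.near_space (K := K) (Set.Ioo (0 : ℝ) 1) (fun κ => (3 + κ) / 2) (Bad K)
      s_nonneg (count K) (dense K) (volume : Measure (mixedEmbedding.mixedSpace K))
      (by rw [mixedEmbedding.finrank K]; exact Module.finrank_pos) (fun c : K => mixedEmbedding K c)
    filter_upwards [h1] with z hz κ σ hκ0 hκ hσ
    have hn : (0 : ℝ) < Module.finrank ℚ K := Pool.Agent.H164.NA.n_pos
    have h2 := hz κ ⟨hκ0, hκ⟩ σ (by
      rw [mixedEmbedding.finrank K, mul_div_cancel_left₀ _ hn.ne']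
      exact hσ)
    exact ⟨h2, h2.subset fun c hc => ⟨hc.1, small hc.2⟩⟩
  · intro K _ _ M _ φ κ σ hκ0 hκ hσ
    refine (Pool.Agent.H164.NA.near_dim (Bad K κ) (s_nonneg κ ⟨hκ0, hκ⟩) (count K κ ⟨hκ0, hκ⟩) φ hσ).trans
      (le_of_eq ?_)
    congr 1
    field_simp
  · have h1 := Pool.Agent.H164.NA.near_subfields (Set.Ioo (0 : ℝ) 1) (fun κ => (3 + κ) / 2) Bad
      s_nonneg count dense ℝ (volume : Measure ℝ) (by rw [Module.finrank_self]; exact one_pos)
    filter_upwards [h1, Pool.Agent.H164.NA.ae_irrational] with z hz hirr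
    refine ⟨fun K _ κ σ hκ0 hκ hσ => ?_, fun σ hσ => Pool.Agent.H164.NA.near_infinite hirr hσ⟩
    exact hz K κ ⟨hκ0, hκ⟩ σ (by rw [Module.finrank_self, Nat.cast_one, div_one]; exact hσ)
  · have h1 := Pool.Agent.H164.NA.near_subfields (Set.Ioo (0 : ℝ) 1) (fun κ => (3 + κ) / 2) Bad
      s_nonneg count dense ℂ (volume : Measure ℂ) (by rw [Complex.finrank_real_complex]; norm_num)
    filter_upwards [h1] with z hz K _ κ σ hκ0 hκ hσ
    have h2 := hz K κ ⟨hκ0, hκ⟩ σ (by
      rw [Complex.finrank_real_complex]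
      push_cast
      linarith)
    refine h2.subset ?_
    rintro c ⟨g1, g2⟩
    exact ⟨by rw [dist_eq_norm]; exact g1, g2⟩

end Pool.Agent.Results.MP_0e6b5f_nt.ConstantTermNearPoints
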