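import Pool.Agent.Helper203.Win.Fam
import Pool.Agent.Results.MP_0e6b5f_nt.AlmostAllIntegerMaps

/-!
# Hénon maps with integer coefficients in windows have no rational periodic point

Let `d ≥ 2`, let `v_k ≥ 1` be a sequence with exponent of convergence at most `τ` (`τ = 0` for `b ^ k`, `τ = 1 / c` for
`(k + 1) ^ c`) and `θ < 1`. For all vectors `α ∈ ℝ^(d + 2)` outside a set of Hausdorff dimension at most
`(d + 19 / 10 + τ) / (1 - θ)` and all large `k`, NO generalized Hénon map of degree `d` with integer coefficients in the box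
with centre `v_k α` and side `2 v_k ^ θ` has a rational periodic point.
-/

set_option autoImplicit false

namespace Pool.Agent.Results.MP_0e6b5f_nt.MapsInWindows

open AlmostAllIntegerMaps (henon)
open Pool.Agent.Helper203.Win.Fam

/-- the exponent of convergence of the sequence `v` is at most `τ` -/
def ExpLe (v : ℕ → ℝ) (τ : ℝ) : Prop := ∀ t : ℝ, τ < t → Summable fun n : ℕ => (v n) ^ (-t)

/-- The map `(x, y) ↦ (y, F(y) - δ x)`, `F(y) = c_0 + c_1 y + ... + c_d y^d`, `δ = c none`, is a generalized Hénon map of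
degree `d` (`c_d ≠ 0`, `δ ≠ 0`) with a rational periodic point. -/
def HasPeriodicPoint {d : ℕ} (c : Option (Fin (d + 1)) → ℤ) : Prop :=
  c (some (Fin.last d)) ≠ 0 ∧ c none ≠ 0 ∧ ∃ (P : ℚ × ℚ) (n : ℕ), 1 ≤ n ∧
    (henon (fun i => (c (some i) : ℚ)) (c none : ℚ))^[n] P = P

lemma count (d : ℕ) (hd : 2 ≤ d) : CountLe (HasPeriodicPoint (d := d)) ((d : ℝ) + 19 / 10) := by
  intro ε hε
  obtain ⟨⟨C, hC⟩, -⟩ := AlmostAllIntegerMaps.result d hd
  refine ⟨max C 0, 1, fun H hH => ?_⟩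
  have hH1 : (1 : ℝ) ≤ H := by exact_mod_cast hH
  have hfin : (AlmostAllIntegerMaps.mapsWithPeriodicPoint d H).Finite := by
    refine Set.Finite.subset ((Fintype.piFinset fun _ : Fin (d + 1) => Finset.Icc (-(H : ℤ)) H) ×ˢ
      Finset.Icc (-(H : ℤ)) H).finite_toSet ?_
    rintro q ⟨⟨h1, h2, -, -⟩, -⟩
    rw [Finset.mem_coe, Finset.mem_product, Fintype.mem_piFinset]
    refine ⟨fun i => ?_, ?_⟩
    · rw [Finset.mem_Icc]
      exact abs_le.1 (h1 i)
    · rw [Finset.mem_Icc]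
      exact abs_le.1 h2
  have hinj : Function.Injective (fun c : Option (Fin (d + 1)) → ℤ =>
      ((fun i => c (some i), c none) : (Fin (d + 1) → ℤ) × ℤ)) := by
    intro c c' h
    rw [Prod.mk.injEq] at h
    funext i
    cases i with
    | none => exact h.2
    | some i => exact congrFun h.1 i
  have hsub : (fun c : Option (Fin (d + 1)) → ℤ => ((fun i => c (some i), c none) : (Fin (d + 1) → ℤ) × ℤ)) ''
      {c | (∀ i, |c i| ≤ (H : ℤ)) ∧ HasPeriodicPoint c} ⊆ AlmostAllIntegerMaps.mapsWithPeriodicPoint d H := by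
    rintro _ ⟨c, ⟨h1, h2, h3, P, n, hn, hP⟩, rfl⟩
    exact ⟨⟨fun i => h1 (some i), h1 none, h2, h3⟩, P, n, hn, hP⟩
  have h1 : (({c : Option (Fin (d + 1)) → ℤ | (∀ i, |c i| ≤ (H : ℤ)) ∧ HasPeriodicPoint c}.ncard : ℕ) : ℝ) ≤
      ((AlmostAllIntegerMaps.mapsWithPeriodicPoint d H).ncard : ℝ) := by
    rw [← Set.ncard_image_of_injective _ hinj]
    exact_mod_cast Set.ncard_le_ncard hsub hfin
  calc _ ≤ ((AlmostAllIntegerMaps.mapsWithPeriodicPoint d H).ncard : ℝ) := h1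
    _ ≤ C * (H : ℝ) ^ ((d : ℝ) + 2 - 1 / 10) := hC H hH
    _ ≤ max C 0 * (H : ℝ) ^ ((d : ℝ) + 19 / 10 + ε) := by
        refine mul_le_mul (le_max_left _ _) ?_ (by positivity) (le_max_right _ _)
        exact Real.rpow_le_rpow_of_exponent_le hH1 (by linarith)

/-- **No rational periodic points for the Hénon maps in windows.** -/
theorem result :
    (∀ d : ℕ, 2 ≤ d → ∀ (v : ℕ → ℝ) (τ θ : ℝ), (∀ k, 1 ≤ v k) → 0 ≤ τ → ExpLe v τ → θ < 1 →
      ∃ X : Set (Option (Fin (d + 1)) → ℝ), dimH X ≤ ENNReal.ofReal (((d : ℝ) + 19 / 10 + τ) / (1 - θ)) ∧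
        ∀ α : Option (Fin (d + 1)) → ℝ, α ∉ X → ∃ k0 : ℕ, ∀ k : ℕ, k0 ≤ k → ∀ c : Option (Fin (d + 1)) → ℤ,
          (∀ i, |(c i : ℝ) - α i * v k| ≤ (v k) ^ θ) → ¬ HasPeriodicPoint c) ∧
    (∀ c : ℝ, 0 < c → ExpLe (fun k : ℕ => ((k : ℝ) + 1) ^ c) (1 / c)) ∧
    (∀ b : ℝ, 1 < b → ExpLe (fun k : ℕ => b ^ k) 0) := by
  refine ⟨?_, Pool.Agent.V35.WM.expLe_pow, Pool.Agent.V35.WM.expLe_geom⟩
  intro d hd v τ θ hpos hτ hv hθ
  obtain ⟨X, hX, h⟩ := windows (fun _ : Unit => HasPeriodicPoint (d := d)) (by positivity : (0 : ℝ) ≤ (d : ℝ) + 19 / 10)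
    hpos hτ hv hθ
  exact ⟨X, hX, fun α hα => h α hα () (count d hd)⟩

end Pool.Agent.Results.MP_0e6b5f_nt.MapsInWindows
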