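import Pool.Agent.Helper203.Win.Fam
import Pool.Agent.Results.MP_0e6b5f_nt.AlmostAllBoundedDegree

/-!
# Hénon maps over number fields in windows have no periodic point of bounded degree

Let `K` be a number field of degree `n`, `B ≥ 1`, `d ≥ 6 B n (B n + 1) + 4`, `v_k ≥ 1` a sequence with exponent of
convergence at most `τ` (`τ = 0` for `b ^ k`, `τ = 1 / c` for `(k + 1) ^ c`) and `θ < 1`. The numerators
`(a_0, …, a_d, δ) ∈ (𝓞 K)^(d + 2)` are written in an integral basis. For all `α ∈ ℝ^(n (d + 2))` outside a set of Hausdorff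
dimension at most `(n (d + 2) - 1 / 4 + τ) / (1 - θ)` and all denominators `m ≠ 0` in `𝓞 K`, for large `k` ALL numerators in
the box with centre `v_k α` and side `2 v_k ^ θ` define a generalized Hénon map `(x, y) ↦ (y, (F(y) - δ x) / m)` of degree
`d` without periodic point `P` with `[K(P) : K] ≤ B`.
-/

set_option autoImplicit false

namespace Pool.Agent.Results.MP_0e6b5f_nt.NumberFieldMapsInWindows

open NumberField Module
open AlmostAllBoundedDegree
open Pool.Agent.Helper203.Win.Fam (CountLe windows cO)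

/-- the exponent of convergence of the sequence `v` is at most `τ` -/
def ExpLe (v : ℕ → ℝ) (τ : ℝ) : Prop := ∀ t : ℝ, τ < t → Summable fun n : ℕ => (v n) ^ (-t)

variable (K : Type) [Field K] [NumberField K]

/-- the indices of the coordinates of `(𝓞 K) ^ (d + 2)`: the coefficients (`none` for `δ`) and the integral basis -/
abbrev Idx (d : ℕ) : Type := Option (Fin (d + 1)) × Free.ChooseBasisIndex ℤ (𝓞 K)

variable {K}

/-- the numerators with the coordinates `c` -/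
noncomputable def nums {d : ℕ} (c : Idx K d → ℤ) : Nums K d :=
  (fun i => ∑ j, c (some i, j) • RingOfIntegers.basis K j, ∑ j, c (none, j) • RingOfIntegers.basis K j)

lemma repr_sum (f : Free.ChooseBasisIndex ℤ (𝓞 K) → ℤ) (j : Free.ChooseBasisIndex ℤ (𝓞 K)) :
    (RingOfIntegers.basis K).repr (∑ j, f j • RingOfIntegers.basis K j) j = f j := by
  rw [Basis.repr_sum_self]

lemma nums_injective {d : ℕ} : Function.Injective (nums (K := K) (d := d)) := by
  intro c c' h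
  unfold nums at h
  rw [Prod.mk.injEq] at h
  funext ⟨i, j⟩
  cases i with
  | none =>
    rw [← repr_sum (fun j => c (none, j)) j, ← repr_sum (fun j => c' (none, j)) j, h.2]
  | some i =>
    rw [← repr_sum (fun j => c (some i, j)) j, ← repr_sum (fun j => c' (some i, j)) j]
    exact congrArg (fun t => (RingOfIntegers.basis K).repr t j) (congrFun h.1 i)

/-- the exceptional numerators -/
def Bad {d : ℕ} (B : ℕ) (m : 𝓞 K) (c : Idx K d → ℤ) : Prop :=
  ¬ (IsHenon (nums c) ∧ ¬ HasPeriodicPoint B (nums c) m)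

lemma count (B d : ℕ) (hB : 1 ≤ B) (hd : 6 * (B * finrank ℚ K * (B * finrank ℚ K + 1)) + 4 ≤ d) (m : 𝓞 K)
    (hm : m ≠ 0) : CountLe (Bad (d := d) B m) ((finrank ℚ K : ℝ) * (d + 2) - 1 / 4) := by
  intro ε hε
  obtain ⟨hbox, ⟨C, hC⟩, -⟩ := AlmostAllBoundedDegree.result K B d hB hd
  refine ⟨max C 0, (∑ j, ((RingOfIntegers.basis K).repr m j).natAbs) + 1, fun H hH => ?_⟩
  have hH0 : 1 ≤ H := by omega
  have hH1 : (1 : ℝ) ≤ H := by exact_mod_cast hH0
  have hms : m ∈ small K H := by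
    intro j
    have h1 : ((RingOfIntegers.basis K).repr m j).natAbs ≤ ∑ j, ((RingOfIntegers.basis K).repr m j).natAbs :=
      Finset.single_le_sum (f := fun j => ((RingOfIntegers.basis K).repr m j).natAbs) (fun _ _ => Nat.zero_le _)
        (Finset.mem_univ j)
    rw [Int.abs_eq_natAbs]
    exact_mod_cast (show ((RingOfIntegers.basis K).repr m j).natAbs ≤ H by omega)
  have hfin : (box K d H).Finite := by
    refine Set.finite_of_ncard_ne_zero ?_
    rw [hbox H]
    positivity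
  have hfin' : {q | q ∈ box K d H ∧ ¬ (IsHenon q ∧ ¬ HasPeriodicPoint B q m)}.Finite := hfin.subset fun q hq => hq.1
  have hsub : nums '' {c : Idx K d → ℤ | (∀ i, |c i| ≤ (H : ℤ)) ∧ Bad B m c} ⊆
      {q | q ∈ box K d H ∧ ¬ (IsHenon q ∧ ¬ HasPeriodicPoint B q m)} := by
    rintro _ ⟨c, ⟨h1, h2⟩, rfl⟩
    refine ⟨⟨fun i j => ?_, fun j => ?_⟩, h2⟩
    · show |(RingOfIntegers.basis K).repr (∑ j, c (some i, j) • RingOfIntegers.basis K j) j| ≤ (H : ℤ)
      rw [repr_sum (fun j => c (some i, j)) j]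
      exact h1 _
    · show |(RingOfIntegers.basis K).repr (∑ j, c (none, j) • RingOfIntegers.basis K j) j| ≤ (H : ℤ)
      rw [repr_sum (fun j => c (none, j)) j]
      exact h1 _
  calc (({c : Idx K d → ℤ | (∀ i, |c i| ≤ (H : ℤ)) ∧ Bad B m c}.ncard : ℕ) : ℝ)
      = ((nums '' {c : Idx K d → ℤ | (∀ i, |c i| ≤ (H : ℤ)) ∧ Bad B m c}).ncard : ℝ) := by
        rw [Set.ncard_image_of_injective _ nums_injective]
    _ ≤ (({q | q ∈ box K d H ∧ ¬ (IsHenon q ∧ ¬ HasPeriodicPoint B q m)} : Set (Nums K d)).ncard : ℝ) := by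
        exact_mod_cast Set.ncard_le_ncard hsub hfin'
    _ ≤ C * (H : ℝ) ^ ((finrank ℚ K : ℝ) * (d + 2) - 1 / 4) := hC H hH0 m hm (Or.inr hms)
    _ ≤ max C 0 * (H : ℝ) ^ ((finrank ℚ K : ℝ) * (d + 2) - 1 / 4 + ε) := by
        refine mul_le_mul (le_max_left _ _) ?_ (by positivity) (le_max_right _ _)
        exact Real.rpow_le_rpow_of_exponent_le hH1 (by linarith)

/-- **No periodic points of bounded degree for the Hénon maps over number fields in windows.** -/
theorem result :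
    (∀ (K : Type) [Field K] [NumberField K] (B d : ℕ), 1 ≤ B →
      6 * (B * finrank ℚ K * (B * finrank ℚ K + 1)) + 4 ≤ d →
      ∀ (v : ℕ → ℝ) (τ θ : ℝ), (∀ k, 1 ≤ v k) → 0 ≤ τ → ExpLe v τ → θ < 1 →
      ∃ X : Set (Idx K d → ℝ),
        dimH X ≤ ENNReal.ofReal (((finrank ℚ K : ℝ) * (d + 2) - 1 / 4 + τ) / (1 - θ)) ∧
        ∀ α : Idx K d → ℝ, α ∉ X → ∀ m : 𝓞 K, m ≠ 0 → ∃ k0 : ℕ, ∀ k : ℕ, k0 ≤ k → ∀ c : Idx K d → ℤ,
          (∀ i, |(c i : ℝ) - α i * v k| ≤ (v k) ^ θ) → IsHenon (nums c) ∧ ¬ HasPeriodicPoint B (nums c) m) ∧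
    (∀ c : ℝ, 0 < c → ExpLe (fun k : ℕ => ((k : ℝ) + 1) ^ c) (1 / c)) ∧
    (∀ b : ℝ, 1 < b → ExpLe (fun k : ℕ => b ^ k) 0) := by
  refine ⟨?_, Pool.Agent.V35.WM.expLe_pow, Pool.Agent.V35.WM.expLe_geom⟩
  intro K _ _ B d hB hd v τ θ hpos hτ hv hθ
  have := cO K
  have hs : (0 : ℝ) ≤ (finrank ℚ K : ℝ) * (d + 2) - 1 / 4 := by
    have h1 : (1 : ℝ) ≤ finrank ℚ K := by exact_mod_cast (finrank_pos : 0 < finrank ℚ K)
    have h2 : (0 : ℝ) ≤ d := Nat.cast_nonneg _
    nlinarith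
  obtain ⟨X, hX, h⟩ := windows (fun m : 𝓞 K => Bad (d := d) B m) hs hpos hτ hv hθ
  refine ⟨X, hX, fun α hα m hm => ?_⟩
  obtain ⟨k0, hk0⟩ := h α hα m (count B d hB hd m hm)
  refine ⟨k0, fun k hk c hc => ?_⟩
  by_contra hcon
  exact hk0 k hk c hc hcon

end Pool.Agent.Results.MP_0e6b5f_nt.NumberFieldMapsInWindows
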