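import Pool.Agent.H107.MetricFam
import Pool.Agent.V35.WM
import Pool.Agent.Results.MP_0e6b5f_nt.AlmostAllRationalMaps

/-!
# The rational Hénon maps near almost every point have no rational periodic point

Let `d ≥ 2`. The height `H(a, δ)` of a generalized Hénon map `(x, y) ↦ (y, F(y) - δ x)`, `F(y) = a_0 + … + a_d y^d`, with
rational coefficients is the least `H` such that for some integer `b ≠ 0` the numbers `b`, `b a_i`, `b δ` are integers of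
absolute value at most `H`. Near almost every real vector `z ∈ ℝ^(d + 2)` only finitely many rational Hénon maps with
`|(a, δ) - z| ≤ H(a, δ)^(-σ)`, where `σ > (d + 3 - 1/20) / (d + 2)`, have a rational periodic point.
-/

set_option autoImplicit false

namespace Pool.Agent.Results.MP_0e6b5f_nt.RationalMapsNearPoints

open AlmostAllRationalMaps (henon) 
open MeasureTheory

/-- The numbers `b ≠ 0`, `b a_i` and `b δ` are integers of absolute value at most `H`, for some `b`. -/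
def HeightLe {d : ℕ} (H : ℕ) (q : (Fin (d + 1) → ℚ) × ℚ) : Prop :=
  ∃ b : ℤ, b ≠ 0 ∧ |b| ≤ (H : ℤ) ∧ (∃ m : ℤ, |m| ≤ (H : ℤ) ∧ (b : ℚ) * q.2 = m) ∧
    ∀ i, ∃ m : ℤ, |m| ≤ (H : ℤ) ∧ (b : ℚ) * q.1 i = m

/-- the height of the map `(a, δ)` -/
noncomputable def ht {d : ℕ} (q : (Fin (d + 1) → ℚ) × ℚ) : ℕ := sInf {H : ℕ | HeightLe H q}

/-- `(a, δ)` defines a generalized Hénon map of degree `d`, and it has a rational periodic point -/
def HasPeriodicPoint {d : ℕ} (q : (Fin (d + 1) → ℚ) × ℚ) : Prop :=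
  q.1 (Fin.last d) ≠ 0 ∧ q.2 ≠ 0 ∧ ∃ (P : ℚ × ℚ) (n : ℕ), 1 ≤ n ∧ (henon q.1 q.2)^[n] P = P

/-- the real vector of the coefficients of the map -/
def vec {d : ℕ} (q : (Fin (d + 1) → ℚ) × ℚ) : Option (Fin (d + 1)) → ℝ
  | none => (q.2 : ℝ)
  | some i => (q.1 i : ℝ)

lemma exists_heightLe {d : ℕ} (q : (Fin (d + 1) → ℚ) × ℚ) : ∃ H : ℕ, HeightLe H q := by
  -- the product of the denominators
  set b : ℤ := (q.2.den : ℤ) * ∏ i, ((q.1 i).den : ℤ) with hb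
  have hb0 : b ≠ 0 := by
    rw [hb]
    refine mul_ne_zero (by exact_mod_cast q.2.den_nz) (Finset.prod_ne_zero_iff.2 fun i _ => ?_)
    exact_mod_cast (q.1 i).den_nz
  have h2 : ∃ m : ℤ, (b : ℚ) * q.2 = m := by
    refine ⟨q.2.num * ∏ i, ((q.1 i).den : ℤ), ?_⟩
    rw [hb]
    push_cast
    have := Rat.den_mul_eq_num q.2
    rw [mul_assoc, mul_comm _ q.2, ← mul_assoc, this]
  have h1 : ∀ i, ∃ m : ℤ, (b : ℚ) * q.1 i = m := by
    intro i
    refine ⟨(q.2.den : ℤ) * ((q.1 i).num * ∏ j ∈ Finset.univ.erase i, ((q.1 j).den : ℤ)), ?_⟩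
    rw [hb, ← Finset.mul_prod_erase Finset.univ _ (Finset.mem_univ i)]
    push_cast
    have := Rat.den_mul_eq_num (q.1 i)
    rw [← this]
    ring
  obtain ⟨m2, hm2⟩ := h2
  choose m1 hm1 using h1
  refine ⟨b.natAbs + m2.natAbs + ∑ i, (m1 i).natAbs, b, hb0, ?_, ⟨m2, ?_, hm2⟩, fun i => ⟨m1 i, ?_, hm1 i⟩⟩
  · push_cast
    have h1 : (0 : ℤ) ≤ ∑ i, |m1 i| := Finset.sum_nonneg fun _ _ => abs_nonneg _
    have h2 := abs_nonneg m2
    linarith
  · push_cast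
    have h1 : (0 : ℤ) ≤ ∑ i, |m1 i| := Finset.sum_nonneg fun _ _ => abs_nonneg _
    have h2 := abs_nonneg b
    linarith
  · push_cast
    have h1 : |m1 i| ≤ ∑ i, |m1 i| :=
      Finset.single_le_sum (f := fun i => |m1 i|) (fun _ _ => abs_nonneg _) (Finset.mem_univ i)
    have h2 := abs_nonneg m2
    have h3 := abs_nonneg b
    linarith

lemma heightLe_ht {d : ℕ} (q : (Fin (d + 1) → ℚ) × ℚ) : HeightLe (ht q) q := Nat.sInf_mem (exists_heightLe q)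

lemma one_le_ht {d : ℕ} (q : (Fin (d + 1) → ℚ) × ℚ) : (1 : ℝ) ≤ (ht q : ℝ) := by
  obtain ⟨b, hb, h, -⟩ := heightLe_ht q
  have h1 := Int.one_le_abs hb
  have h2 : (1 : ℤ) ≤ (ht q : ℤ) := h1.trans h
  exact_mod_cast h2

lemma heightLe_mono {d : ℕ} {H H' : ℕ} (h : H ≤ H') {q : (Fin (d + 1) → ℚ) × ℚ} (hq : HeightLe H q) : HeightLe H' q := by
  obtain ⟨b, h0, h1, ⟨m, h2, h3⟩, h4⟩ := hq
  have hz : (H : ℤ) ≤ H' := by exact_mod_cast h
  refine ⟨b, h0, h1.trans hz, ⟨m, h2.trans hz, h3⟩, fun i => ?_⟩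
  obtain ⟨m, h5, h6⟩ := h4 i
  exact ⟨m, h5.trans hz, h6⟩

lemma finite_maps (d H : ℕ) : (AlmostAllRationalMaps.maps d H).Finite := by
  refine Set.Finite.subset (((Finset.Icc (-(H : ℤ)) H) ×ˢ (Finset.Icc (-(H : ℤ)) H) ×ˢ
    (Fintype.piFinset fun _ : Fin (d + 1) => Finset.Icc (-(H : ℤ)) H)).image
      (fun t : ℤ × ℤ × (Fin (d + 1) → ℤ) => (((fun i => (t.2.2 i : ℚ) / t.1), (t.2.1 : ℚ) / t.1) :
        (Fin (d + 1) → ℚ) × ℚ))).finite_toSet ?_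
  rintro q ⟨-, -, b, hb0, hb, ⟨m, hm1, hm2⟩, h⟩
  choose m' h1 h2 using h
  rw [Finset.mem_coe, Finset.mem_image]
  have hbq : (b : ℚ) ≠ 0 := by exact_mod_cast hb0
  refine ⟨(b, m, m'), ?_, ?_⟩
  · rw [Finset.mem_product, Finset.mem_product, Fintype.mem_piFinset]
    refine ⟨Finset.mem_Icc.2 (abs_le.1 hb), Finset.mem_Icc.2 (abs_le.1 hm1), fun i => Finset.mem_Icc.2 (abs_le.1 (h1 i))⟩
  · refine Prod.ext ?_ ?_
    · funext i
      simp only
      rw [← h2 i]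
      field_simp
    · simp only
      rw [← hm2]
      field_simp

lemma count (d : ℕ) (hd : 2 ≤ d) : ∀ ε : ℝ, 0 < ε → ∃ C : ℝ, ∀ X : ℝ, 1 ≤ X →
    {q : (Fin (d + 1) → ℚ) × ℚ | HasPeriodicPoint q ∧ (ht q : ℝ) ≤ X}.Finite ∧
      ({q : (Fin (d + 1) → ℚ) × ℚ | HasPeriodicPoint q ∧ (ht q : ℝ) ≤ X}.ncard : ℝ) ≤
        C * X ^ ((d : ℝ) + 59 / 20 + ε) := by
  intro ε hε
  obtain ⟨⟨C, hC⟩, -⟩ := AlmostAllRationalMaps.result d hd
  refine ⟨max C 0, fun X hX => ?_⟩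
  have hH : 1 ≤ ⌊X⌋₊ := (Nat.one_le_floor_iff X).2 hX
  have hH1 : (1 : ℝ) ≤ (⌊X⌋₊ : ℝ) := by exact_mod_cast hH
  have hle : (⌊X⌋₊ : ℝ) ≤ X := Nat.floor_le (by linarith)
  have hfin : (AlmostAllRationalMaps.mapsWithPeriodicPoint d ⌊X⌋₊).Finite :=
    (finite_maps d ⌊X⌋₊).subset fun q hq => hq.1
  have hsub : {q : (Fin (d + 1) → ℚ) × ℚ | HasPeriodicPoint q ∧ (ht q : ℝ) ≤ X} ⊆
      AlmostAllRationalMaps.mapsWithPeriodicPoint d ⌊X⌋₊ := by
    rintro q ⟨⟨h1, h2, P, n, hn, hP⟩, h3⟩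
    have h4 : ht q ≤ ⌊X⌋₊ := Nat.le_floor h3
    exact ⟨⟨h1, h2, heightLe_mono h4 (heightLe_ht q)⟩, P, n, hn, hP⟩
  refine ⟨hfin.subset hsub, ?_⟩
  calc ({q : (Fin (d + 1) → ℚ) × ℚ | HasPeriodicPoint q ∧ (ht q : ℝ) ≤ X}.ncard : ℝ)
      ≤ ((AlmostAllRationalMaps.mapsWithPeriodicPoint d ⌊X⌋₊).ncard : ℝ) := by
        exact_mod_cast Set.ncard_le_ncard hsub hfin
    _ ≤ C * (⌊X⌋₊ : ℝ) ^ ((d : ℝ) + 3 - 1 / 20) := (hC _ hH).1
    _ ≤ max C 0 * X ^ ((d : ℝ) + 59 / 20 + ε) := by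
        refine mul_le_mul (le_max_left _ _) ?_ (by positivity) (le_max_right _ _)
        refine (Real.rpow_le_rpow_of_exponent_le hH1 (show (d : ℝ) + 3 - 1 / 20 ≤ (d : ℝ) + 59 / 20 + ε by linarith)).trans ?_
        exact Real.rpow_le_rpow (by linarith) hle (by positivity)

/-- **Rational Hénon maps near points.** Let `d ≥ 2`.
(1) For every map `φ` of the set of the rational maps `(a, δ)` to a metric space and every `σ > 0` there is a set of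
Hausdorff dimension at most `(d + 59 / 20) / σ` outside of which, for each point `z`, all but finitely many generalized
Hénon maps `(a, δ)` of degree `d` over `ℚ` with `dist (φ (a, δ)) z ≤ H(a, δ) ^ (-σ)` have no rational periodic point.
(2) For almost every `z ∈ ℝ^(d + 2)` and every `σ > (d + 59 / 20) / (d + 2)`, all but finitely many generalized Hénon maps
of degree `d` over `ℚ` whose coefficients differ from those of `z` by at most `H ^ (-σ)` have no rational periodic point. -/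
theorem result (d : ℕ) (hd : 2 ≤ d) :
    (∀ (M : Type) [MetricSpace M] (φ : (Fin (d + 1) → ℚ) × ℚ → M) (σ : ℝ), 0 < σ →
      ∃ E : Set M, dimH E ≤ ENNReal.ofReal (((d : ℝ) + 59 / 20) / σ) ∧ ∀ z ∉ E,
        {q : (Fin (d + 1) → ℚ) × ℚ | HasPeriodicPoint q ∧ dist (φ q) z ≤ (ht q : ℝ) ^ (-σ)}.Finite) ∧
    (∀ᵐ z : Option (Fin (d + 1)) → ℝ, ∀ σ : ℝ, ((d : ℝ) + 59 / 20) / (d + 2) < σ →
      {q : (Fin (d + 1) → ℚ) × ℚ | HasPeriodicPoint q ∧ ∀ i, |vec q i - z i| ≤ (ht q : ℝ) ^ (-σ)}.Finite) := by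
  have part1 : ∀ (M : Type) [MetricSpace M] (φ : (Fin (d + 1) → ℚ) × ℚ → M) (σ : ℝ), 0 < σ →
      ∃ E : Set M, dimH E ≤ ENNReal.ofReal (((d : ℝ) + 59 / 20) / σ) ∧ ∀ z ∉ E,
        {q : (Fin (d + 1) → ℚ) × ℚ | HasPeriodicPoint q ∧ dist (φ q) z ≤ (ht q : ℝ) ^ (-σ)}.Finite := by
    intro M _ φ σ hσ
    obtain ⟨E, hE, h⟩ := Pool.Agent.H107.ME.dim_family φ (fun q => (ht q : ℝ)) one_le_ht
      (by positivity : (0 : ℝ) ≤ (d : ℝ) + 59 / 20) hσ (fun _ : Unit => {q | HasPeriodicPoint q})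
      (fun _ => count d hd)
    exact ⟨E, hE, fun z hz => h z hz ()⟩
  refine ⟨part1, ?_⟩
  have hd0 : (0 : ℝ) < (d : ℝ) + 2 := by positivity
  set s : ℝ := ((d : ℝ) + 59 / 20) / (d + 2) with hs
  have hs0 : 0 < s := by positivity
  have hpos : ∀ k : ℕ, 0 < s + 1 / ((k : ℝ) + 1) := fun k => by positivity
  have hall := fun k : ℕ => part1 (Option (Fin (d + 1)) → ℝ) vec (s + 1 / ((k : ℝ) + 1)) (hpos k)
  choose E hE1 hE2 using hall
  have hnull : ∀ k, volume (E k) = 0 := by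
    intro k
    refine Pool.Agent.V35.WM.null_of_dimH (hE1 k) (div_nonneg (by positivity) (hpos k).le) ?_
    have hc : (Fintype.card (Option (Fin (d + 1))) : ℝ) = d + 2 := by
      rw [Fintype.card_option, Fintype.card_fin]
      push_cast
      ring
    rw [hc, div_lt_iff₀ (hpos k)]
    have h1 : ((d : ℝ) + 2) * s = (d : ℝ) + 59 / 20 := by
      rw [hs]
      field_simp
    have h2 : 0 < ((d : ℝ) + 2) * (1 / ((k : ℝ) + 1)) := by positivity
    rw [mul_add, h1]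
    linarith
  have hae : ∀ᵐ z : Option (Fin (d + 1)) → ℝ, ∀ k, z ∉ E k := by
    rw [ae_all_iff]
    intro k
    exact compl_mem_ae_iff.2 (hnull k)
  filter_upwards [hae] with z hz σ hσ
  obtain ⟨k, hk⟩ := exists_nat_one_div_lt (sub_pos.2 hσ)
  refine (hE2 k z (hz k)).subset ?_
  rintro q ⟨g1, g2⟩
  refine ⟨g1, ?_⟩
  have h0 : (0 : ℝ) ≤ (ht q : ℝ) ^ (-(s + 1 / ((k : ℝ) + 1))) := by positivity
  rw [dist_pi_le_iff h0]
  intro i
  rw [Real.dist_eq]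
  exact (g2 i).trans (Real.rpow_le_rpow_of_exponent_le (one_le_ht q) (by linarith))

end Pool.Agent.Results.MP_0e6b5f_nt.RationalMapsNearPoints
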